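import Mathlib

/-!
# PU-9: parabolic coordinates in one variable
-/

open MeasureTheory Set Metric Filter Module
open scoped NNReal Topology RealInnerProductSpace ENNReal Real ContDiff Manifold

namespace Pool.Agent.Helper19.PU

private lemma sqrt_parabolic {w q : ℝ} (hw : 0 < w) (hq : 0 < q) :
    √(((q ^ 2 - w) / (2 * q)) ^ 2 + w) = (q ^ 2 + w) / (2 * q) := by
  have h1 : ((q ^ 2 - w) / (2 * q)) ^ 2 + w = ((q ^ 2 + w) / (2 * q)) ^ 2 := by
    field_simp
    ring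
  rw [h1, Real.sqrt_sq (by positivity)]

theorem lintegral_parabolic_one (w : ℝ) (hw : 0 < w) (f : ℝ → ℝ → ℝ≥0∞) :
    ∫⁻ s : ℝ, f s (√(s ^ 2 + w))
      = ∫⁻ q in Ioi (0 : ℝ), ENNReal.ofReal ((q ^ 2 + w) / (2 * q ^ 2))
          * f ((q ^ 2 - w) / (2 * q)) ((q ^ 2 + w) / (2 * q)) := by
  have hder : ∀ q ∈ Ioi (0 : ℝ), HasDerivWithinAt (fun q : ℝ => (q ^ 2 - w) / (2 * q))
      ((q ^ 2 + w) / (2 * q ^ 2)) (Ioi 0) q := by
    intro q hq
    have hq0 : (q : ℝ) ≠ 0 := (mem_Ioi.1 hq).ne'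
    have h1 := (((hasDerivAt_id q).pow 2).sub_const w).div ((hasDerivAt_id q).const_mul 2)
      (by simpa using hq0)
    refine (h1.congr_deriv ?_).hasDerivWithinAt
    simp
    field_simp
    ring
  have hinj : InjOn (fun q : ℝ => (q ^ 2 - w) / (2 * q)) (Ioi 0) := by
    intro p hp q hq h
    have h1 : (p ^ 2 - w) / (2 * p) = (q ^ 2 - w) / (2 * q) := h
    have h2 := sqrt_parabolic hw (mem_Ioi.1 hp)
    have h3 := sqrt_parabolic hw (mem_Ioi.1 hq)
    rw [h1, h3] at h2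
    have hp0 : (p : ℝ) ≠ 0 := (mem_Ioi.1 hp).ne'
    have hq0 : (q : ℝ) ≠ 0 := (mem_Ioi.1 hq).ne'
    have e1 : p = (p ^ 2 - w) / (2 * p) + (p ^ 2 + w) / (2 * p) := by
      field_simp
      ring
    have e2 : q = (q ^ 2 - w) / (2 * q) + (q ^ 2 + w) / (2 * q) := by
      field_simp
      ring
    rw [e1, e2, h1, h2]
  have himg : (fun q : ℝ => (q ^ 2 - w) / (2 * q)) '' Ioi 0 = univ := by
    refine eq_univ_of_forall fun s => ?_
    have hs : s < √(s ^ 2 + w) ∧ -s < √(s ^ 2 + w) := by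
      constructor
      · exact Real.lt_sqrt_of_sq_lt (by linarith)
      · exact Real.lt_sqrt_of_sq_lt (by rw [neg_sq]; linarith)
    have hpos : 0 < s + √(s ^ 2 + w) := by linarith [hs.2]
    refine ⟨s + √(s ^ 2 + w), hpos, ?_⟩
    have h4 : √(s ^ 2 + w) ^ 2 = s ^ 2 + w := Real.sq_sqrt (by positivity)
    show ((s + √(s ^ 2 + w)) ^ 2 - w) / (2 * (s + √(s ^ 2 + w))) = s
    rw [div_eq_iff (by positivity)]
    linear_combination h4
  have h := lintegral_image_eq_lintegral_abs_deriv_mul (s := Ioi (0 : ℝ)) measurableSet_Ioi hder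
    hinj (fun s => f s (√(s ^ 2 + w)))
  rw [himg, Measure.restrict_univ] at h
  rw [h]
  refine setLIntegral_congr_fun measurableSet_Ioi fun q hq => ?_
  have hq' : (0 : ℝ) < q := hq
  show ENNReal.ofReal |(q ^ 2 + w) / (2 * q ^ 2)| *
    f ((q ^ 2 - w) / (2 * q)) (√(((q ^ 2 - w) / (2 * q)) ^ 2 + w)) = _
  rw [sqrt_parabolic hw hq', abs_of_nonneg (by positivity)]

end Pool.Agent.Helper19.PU
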